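import Pool.Agent.Helper60.Slit.UniqA
/-! `Df_stepY` -/
namespace IP.Slit
open IP Finset Real

theorem stepY_pair {m k : ℕ} (ih : ∀ b, Df m k b = 0) (j : ℕ) (h1 : 2 * m + 3 ≤ j) :
    j ≤ 2 * (m + k + 2) → ∀ b : ℕ → ℝ, b j = b (2 * m + 2) + π / 3 →
      xx b (2 * m + 2) ≠ xx b j → Df m (k + 1) b = 0 := by
  induction j, h1 using Nat.le_induction with
  | base => exact fun _ b hb hx => Df_wheelY ih hb hx
  | succ j hj IH =>
    intro h2 b hb hx
    have e1 : sw j b j = b (j + 1) := nb_sw_left j b
    have e2 : sw j b (2 * m + 2) = b (2 * m + 2) := nb_sw_ne (by omega) (by omega) b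
    have h3 := IH (by omega) (sw j b) (by rw [e1, e2, hb]) (by
      unfold xx at hx ⊢
      rw [e1, e2]
      exact hx)
    rwa [Df_swY (by omega) (by omega)] at h3

theorem stepY_cos_ne {a c : ℝ} (h1 : Real.sin (a + c) ≠ 0) (h2 : Real.sin (a - c) ≠ 0) :
    2 * Real.cos (2 * a) ≠ 2 * Real.cos (2 * c) := by
  intro h
  have h3 := Real.cos_sub_cos (2 * a) (2 * c)
  rw [show (2 * a + 2 * c) / 2 = a + c by ring, show (2 * a - 2 * c) / 2 = a - c by ring] at h3
  have h4 : Real.sin (a + c) * Real.sin (a - c) = 0 := by linarith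
  rcases mul_eq_zero.1 h4 with h5 | h5
  · exact h1 h5
  · exact h2 h5

theorem stepY_node {m k : ℕ} (ih : ∀ b, Df m k b = 0) {j : ℕ} (h1 : 2 * m + 3 ≤ j)
    (h2 : j ≤ 2 * (m + k + 2)) (f : Bool) (b : ℕ → ℝ)
    (hb : b (2 * m + 2) = b j + (if f then π / 3 else -(π / 3)))
    (hx : xx b (2 * m + 2) ≠ xx b j) : Df m (k + 1) b = 0 := by
  cases f <;> simp only [if_true, if_false, Bool.false_eq_true] at hb
  · exact stepY_pair ih j h1 h2 b (by rw [hb]; ring) hx
  · have a1 : ng (2 * m + 2) (ng j b) (2 * m + 2) = -b (2 * m + 2) := by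
      rw [zf_ng_self, zf_ng_ne (by omega)]
    have a2 : ng (2 * m + 2) (ng j b) j = -b j := by
      rw [zf_ng_ne (by omega), zf_ng_self]
    have h3 := stepY_pair ih j h1 h2 (ng (2 * m + 2) (ng j b)) (by rw [a1, a2, hb]; ring) (by
      unfold xx at hx ⊢
      rw [a1, a2, mul_neg, Real.cos_neg, mul_neg, Real.cos_neg]
      exact hx)
    rwa [Df_ng (by omega), Df_ng (by omega)] at h3

theorem stepY_generic {m k : ℕ} (h : m + 2 ≤ 2 * (k + 1)) (ih : ∀ b, Df m k b = 0) {b : ℕ → ℝ}
    (hG : Gn b) : Df m (k + 1) b = 0 := by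
  obtain ⟨P, hP, hPe⟩ := Df_polyY (m := m) (k := k + 1) (i := 2 * m + 2) le_rfl (by omega) b
  -- the points
  set y : ℕ × Bool → ℝ := fun l => b l.1 + (if l.2 then π / 3 else -(π / 3)) with hy
  set T : Finset (ℕ × Bool) := (Icc (2 * m + 3) (2 * (m + k + 2))) ×ˢ (univ : Finset Bool) with hT
  have hcard : T.card = 4 * (k + 1) := by
    rw [hT, card_product, Nat.card_Icc]
    simp
    omega
  have hsum : ∀ l l' : ℕ × Bool, Real.sin (y l + y l') ≠ 0 := by
    rintro ⟨i, f⟩ ⟨j, f'⟩
    simp only [hy]
    have g := hG.add i j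
    cases f <;> cases f' <;> simp only [if_true, if_false, Bool.false_eq_true]
    · have := g (-2)
      rwa [show b i + -(π / 3) + (b j + -(π / 3)) = b i + b j + ((-2 : ℤ) : ℝ) * (π / 3) by
        push_cast; ring]
    · have := g 0
      rwa [show b i + -(π / 3) + (b j + (π / 3)) = b i + b j + ((0 : ℤ) : ℝ) * (π / 3) by
        push_cast; ring]
    · have := g 0
      rwa [show b i + (π / 3) + (b j + -(π / 3)) = b i + b j + ((0 : ℤ) : ℝ) * (π / 3) by
        push_cast; ring]
    · have := g 2
      rwa [show b i + (π / 3) + (b j + (π / 3)) = b i + b j + ((2 : ℤ) : ℝ) * (π / 3) by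
        push_cast; ring]
  have hdif : ∀ l l' : ℕ × Bool, l ≠ l' → Real.sin (y l - y l') ≠ 0 := by
    rintro ⟨i, f⟩ ⟨j, f'⟩ hne
    have := lb_sub hG (l := (i, true, f)) (l' := (j, true, f')) (fun h0 => hne (by
      simp only [Prod.mk.injEq, true_and] at h0
      rw [h0.1, h0.2]))
    unfold lb at this
    simp only [if_true] at this
    exact this
  have hinj : Set.InjOn (fun l => 2 * Real.cos (2 * y l)) (T : Set (ℕ × Bool)) := by
    intro l _ l' _ h0
    by_contra hne
    exact stepY_cos_ne (hsum l l') (hdif l l' hne) h0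
  have hP0 : P = 0 := by
    refine Polynomial.eq_zero_of_natDegree_lt_card_of_eval_eq_zero' P
      (T.image (fun l => 2 * Real.cos (2 * y l))) ?_ ?_
    · intro X hX
      obtain ⟨l, hl, rfl⟩ := mem_image.1 hX
      obtain ⟨j, f⟩ := l
      have hj : 2 * m + 3 ≤ j ∧ j ≤ 2 * (m + k + 2) := by
        rw [hT, mem_product, mem_Icc] at hl
        exact hl.1
      rw [← hPe]
      refine stepY_node ih hj.1 hj.2 f _ ?_ ?_
      · rw [Function.update_self, Function.update_of_ne (by omega)]
      · unfold xx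
        rw [Function.update_self, Function.update_of_ne (by omega)]
        have n1 : ¬ ((3 : ℤ) ∣ 1) := by decide
        have n2 : ¬ ((3 : ℤ) ∣ -1) := by decide
        apply stepY_cos_ne
        · simp only [hy]
          have g := hG.add j j
          cases f <;> simp only [if_true, if_false, Bool.false_eq_true]
          · have := g (-1)
            rwa [show b j + -(π / 3) + b j = b j + b j + ((-1 : ℤ) : ℝ) * (π / 3) by
              push_cast; ring]
          · have := g 1
            rwa [show b j + (π / 3) + b j = b j + b j + ((1 : ℤ) : ℝ) * (π / 3) by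
              push_cast; ring]
        · simp only [hy]
          cases f <;> simp only [if_true, if_false, Bool.false_eq_true]
          · have := sin_k_pi (-1) n2
            rwa [show b j + -(π / 3) - b j = ((-1 : ℤ) : ℝ) * (π / 3) by
              push_cast; ring]
          · have := sin_k_pi 1 n1
            rwa [show b j + (π / 3) - b j = ((1 : ℤ) : ℝ) * (π / 3) by
              push_cast; ring]
    · rw [card_image_of_injOn hinj, hcard]
      omega
  have h5 := hPe (b (2 * m + 2))
  rw [Function.update_eq_self, hP0, Polynomial.eval_zero] at h5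
  exact h5

theorem stepY_main {m k : ℕ} (h : m + 2 ≤ 2 * (k + 1)) (ih : ∀ b, Df m k b = 0) (b : ℕ → ℝ) :
    Df m (k + 1) b = 0 := by
  have hcont : Continuous (fun t : ℝ => Df m (k + 1) (fun i => b i + t * ((i : ℝ) + 1))) := by
    refine (Df_continuous m (k + 1)).comp ?_
    fun_prop
  have hdense := (Gn_line b).dense_compl ℝ
  have h1 : (fun t : ℝ => Df m (k + 1) (fun i => b i + t * ((i : ℝ) + 1))) = fun _ => 0 := by
    apply Continuous.ext_on hdense hcont continuous_const
    intro t ht
    have ht' : Gn (fun i => b i + t * ((i : ℝ) + 1)) := by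
      by_contra h
      exact ht h
    exact stepY_generic h ih ht'
  have h2 := congrFun h1 0
  simpa using h2

end IP.Slit
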